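import Mathlib

set_option autoImplicit false

/-!
# Real symmetric matrices: spectral theorem in coordinates
-/

namespace Pool.Agent.K9h63.AED

open Finset Matrix

theorem spec {n : Type} [Fintype n] [DecidableEq n] (A : Matrix n n ℝ) (hA : Aᵀ = A) :
    ∃ (U : Matrix n n ℝ) (l : n → ℝ), U * Uᵀ = 1 ∧ Uᵀ * U = 1 ∧ A = U * diagonal l * Uᵀ := by
  have hH : A.IsHermitian := by
    rw [Matrix.IsHermitian, Matrix.conjTranspose_eq_transpose_of_trivial, hA]
  refine ⟨(hH.eigenvectorUnitary : Matrix n n ℝ), hH.eigenvalues, ?_, ?_, ?_⟩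
  · have := Matrix.mem_unitaryGroup_iff.1 hH.eigenvectorUnitary.2
    rwa [Matrix.star_eq_conjTranspose, Matrix.conjTranspose_eq_transpose_of_trivial] at this
  · have := Matrix.mem_unitaryGroup_iff'.1 hH.eigenvectorUnitary.2
    rwa [Matrix.star_eq_conjTranspose, Matrix.conjTranspose_eq_transpose_of_trivial] at this
  · have := hH.spectral_theorem
    rw [Unitary.conjStarAlgAut_apply, Matrix.star_eq_conjTranspose,
      Matrix.conjTranspose_eq_transpose_of_trivial] at this
    exact this

/-- A symmetric idempotent real matrix of trace `ρ` is a Gram matrix of vectors in `ℝ^ρ`. -/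
theorem factor {n : Type} [Fintype n] [DecidableEq n] (P : Matrix n n ℝ) (hP : Pᵀ = P)
    (hPP : P * P = P) : ∃ (m : ℕ) (Y : n → Fin m → ℝ), (m : ℝ) = P.trace ∧
      ∀ i j, ∑ k, Y i k * Y j k = P i j := by
  obtain ⟨U, l, h1, h2, h3⟩ := spec P hP
  have hD : Uᵀ * P * U = diagonal l := by
    rw [h3]
    have : Uᵀ * (U * diagonal l * Uᵀ) * U = (Uᵀ * U) * diagonal l * (Uᵀ * U) := by
      simp only [Matrix.mul_assoc]
    rw [this, h2, one_mul, mul_one]
  have hl : ∀ i, l i * l i = l i := by
    have h4 : diagonal l * diagonal l = diagonal l := by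
      rw [← hD]
      have : Uᵀ * P * U * (Uᵀ * P * U) = Uᵀ * P * (U * Uᵀ) * P * U := by
        simp only [Matrix.mul_assoc]
      rw [this, h1, mul_one]
      have : Uᵀ * P * P * U = Uᵀ * (P * P) * U := by simp only [Matrix.mul_assoc]
      rw [this, hPP]
    intro i
    have h5 := congrFun (congrFun h4 i) i
    rw [Matrix.diagonal_mul_diagonal, Matrix.diagonal_apply_eq, Matrix.diagonal_apply_eq] at h5
    exact h5
  have hl' : ∀ i, l i = 0 ∨ l i = 1 := by
    intro i
    have h4 : l i * (l i - 1) = 0 := by rw [mul_sub, hl i, mul_one, sub_self]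
    rcases mul_eq_zero.1 h4 with h | h
    · exact Or.inl h
    · right; linarith
  classical
  set S : Finset n := univ.filter fun i => l i = 1 with hS
  have hcard : (S.card : ℝ) = P.trace := by
    have h4 : P.trace = ∑ i, l i := by
      have h5 : (Uᵀ * P * U).trace = P.trace := by
        rw [Matrix.mul_assoc, Matrix.trace_mul_comm, Matrix.mul_assoc, h1, mul_one]
      rw [← h5, hD, Matrix.trace_diagonal]
    rw [h4, hS, Finset.card_filter]
    push_cast
    refine Finset.sum_congr rfl fun i _ => ?_
    rcases hl' i with h | h <;> simp [h]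
  have hP' : ∀ i j, P i j = ∑ k ∈ S, U i k * U j k := by
    intro i j
    have h4 : P i j = ∑ k, U i k * l k * U j k := by
      conv_lhs => rw [h3]
      rw [Matrix.mul_apply]
      refine Finset.sum_congr rfl fun k _ => ?_
      rw [Matrix.mul_diagonal, Matrix.transpose_apply]
    rw [h4, hS, Finset.sum_filter]
    refine Finset.sum_congr rfl fun k _ => ?_
    rcases hl' k with h | h <;> simp [h]
  let e := S.equivFin
  refine ⟨S.card, fun i k => U i (e.symm k), hcard, ?_⟩
  intro i j
  rw [hP' i j]
  rw [← Finset.sum_coe_sort S (fun k => U i k * U j k)]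
  exact Equiv.sum_comp e.symm (fun k : S => U i k * U j k)

end Pool.Agent.K9h63.AED
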