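import Pool.Agent.K9h63.AED.Mat
import Pool.Agent.K9h63.AED.Spec

set_option autoImplicit false

/-!
# The configuration of `2 q²` points given by a field with `q` elements
-/

namespace Pool.Agent.K9h63.AED

open Finset Matrix

/-- vectors of squared length `1/2` whose inner products are in `[0, 1/2)`; among any three of
them two are orthogonal -/
def Good {ι κ : Type} [Fintype κ] (v : ι → κ → ℝ) : Prop :=
  (∀ i, ∑ k, v i k * v i k = 1 / 2) ∧
  (∀ i j, i ≠ j → 0 ≤ ∑ k, v i k * v j k ∧ ∑ k, v i k * v j k < 1 / 2) ∧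
  ∀ i j l, i ≠ j → i ≠ l → j ≠ l →
    ∑ k, v i k * v j k = 0 ∨ ∑ k, v i k * v l k = 0 ∨ ∑ k, v j k * v l k = 0

variable {F : Type} [Field F] [Fintype F] [DecidableEq F]

/-- the projection -/
noncomputable def P (F : Type) [Field F] [Fintype F] [DecidableEq F] (s : ℝ) :
    Matrix (V F) (V F) ℝ :=
  (1 / 2 : ℝ) • (1 - (q F)⁻¹ • L F) + (1 / (2 * s)) • (B F - (q F)⁻¹ • J F)

theorem q_pos : 0 < q F := by
  unfold q
  exact_mod_cast Fintype.card_pos

theorem P_transpose (s : ℝ) : (P F s)ᵀ = P F s := by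
  have h2 : (L F)ᵀ = L F := by ext u v; exact L_symm v u
  have h3 : (B F)ᵀ = B F := by ext u v; exact B_symm v u
  have h4 : (J F)ᵀ = J F := by ext u v; rfl
  unfold P
  simp only [Matrix.transpose_add, Matrix.transpose_smul, Matrix.transpose_sub,
    Matrix.transpose_one, h2, h3, h4]

variable [CharP F 2]

theorem P_idem (hc : Function.Injective fun x : F => x ^ 3) {s : ℝ} (hs : 0 < s)
    (hsq : s ^ 2 = 2 * q F) : P F s * P F s = P F s := by
  have hq : (q F : ℝ) ≠ 0 := q_pos.ne'
  set E : Matrix (V F) (V F) ℝ := (q F)⁻¹ • L F with hE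
  set R : Matrix (V F) (V F) ℝ := B F - (q F)⁻¹ • J F with hR
  have hEE : E * E = E := by
    rw [hE, Matrix.smul_mul, Matrix.mul_smul, LL, smul_smul, smul_smul]
    congr 1
    field_simp
  have hER : E * R = 0 := by
    rw [hE, hR, Matrix.mul_sub, Matrix.smul_mul, Matrix.smul_mul, Matrix.mul_smul, LB, LJ,
      smul_smul, smul_smul, ← sub_smul]
    have : (q F)⁻¹ - (q F)⁻¹ * (q F)⁻¹ * q F = 0 := by
      rw [mul_assoc, inv_mul_cancel₀ hq, mul_one, sub_self]
    rw [this, zero_smul]
  have hRE : R * E = 0 := by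
    rw [hE, hR, Matrix.sub_mul, Matrix.mul_smul, Matrix.mul_smul, Matrix.smul_mul, BL, JL,
      smul_smul, smul_smul, ← sub_smul]
    have : (q F)⁻¹ - (q F)⁻¹ * (q F)⁻¹ * q F = 0 := by
      rw [mul_assoc, inv_mul_cancel₀ hq, mul_one, sub_self]
    rw [this, zero_smul]
  have hRR : R * R = (s ^ 2) • (1 - E) := by
    rw [hR, Matrix.sub_mul, Matrix.mul_sub, Matrix.mul_sub, Matrix.smul_mul, Matrix.smul_mul,
      Matrix.mul_smul, Matrix.mul_smul, BB hc, BJ, JB, JJ, hE, hsq]
    simp only [smul_sub, smul_smul]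
    ext u v
    simp only [Matrix.sub_apply, Matrix.add_apply, Matrix.smul_apply, smul_eq_mul, J_apply]
    field_simp
    ring
  unfold P
  rw [← hE, ← hR]
  have e1 : ((1 / 2 : ℝ) • (1 - E) + (1 / (2 * s)) • R) *
      ((1 / 2 : ℝ) • (1 - E) + (1 / (2 * s)) • R) =
      ((1 / 2 : ℝ) * (1 / 2)) • ((1 - E) * (1 - E)) + ((1 / 2 : ℝ) * (1 / (2 * s))) •
      ((1 - E) * R) + ((1 / 2 : ℝ) * (1 / (2 * s))) • (R * (1 - E)) +
      ((1 / (2 * s)) * (1 / (2 * s))) • (R * R) := by
    generalize (1 - E) = G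
    generalize (1 / (2 * s)) = c
    simp only [Matrix.add_mul, Matrix.mul_add, Matrix.smul_mul, Matrix.mul_smul, smul_smul]
    ext u v
    simp only [Matrix.add_apply, Matrix.smul_apply, smul_eq_mul]
    ring
  have e2 : (1 - E) * (1 - E) = 1 - E := by
    rw [Matrix.sub_mul, Matrix.mul_sub, Matrix.mul_sub, hEE]
    simp
  have e3 : (1 - E) * R = R := by rw [Matrix.sub_mul, hER]; simp
  have e4 : R * (1 - E) = R := by rw [Matrix.mul_sub, hRE]; simp
  rw [e1, e2, e3, e4, hRR, smul_smul]
  have e5 : (1 / (2 * s)) * (1 / (2 * s)) * s ^ 2 = 1 / 4 := by field_simp; norm_num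
  rw [e5]
  have e6 : (1 / 2 : ℝ) * (1 / 2) = 1 / 4 := by norm_num
  rw [e6]
  ext u v
  simp only [Matrix.add_apply, Matrix.smul_apply, smul_eq_mul]
  field_simp
  ring

theorem P_trace (s : ℝ) (hs : 0 < s) : (P F s).trace =
    q F * (q F - 1) * (s + 1) / s := by
  have hq : (q F : ℝ) ≠ 0 := q_pos.ne'
  have h1 : (L F).trace = 2 * q F * q F := by
    simp only [Matrix.trace, Matrix.diag_apply, L_apply, if_true]
    simp [q]
    ring
  have h2 : (J F).trace = 2 * q F * q F := by
    simp only [Matrix.trace, Matrix.diag_apply, J_apply]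
    simp [q]
    ring
  have h3 : (B F).trace = 2 * q F * q F := by
    simp only [Matrix.trace, Matrix.diag_apply, B_diag]
    simp [q]
    ring
  have h4 : (1 : Matrix (V F) (V F) ℝ).trace = 2 * q F * q F := by
    rw [Matrix.trace_one]
    simp [q]
    ring
  unfold P
  simp only [Matrix.trace_add, Matrix.trace_smul, Matrix.trace_sub, h1, h2, h3, h4, smul_eq_mul]
  field_simp

/-- the block -/
theorem block (hc : Function.Injective fun x : F => x ^ 3) {s : ℝ} (hs : 0 < s)
    (hsq : s ^ 2 = 2 * q F) : ∃ (m : ℕ) (v : V F → Fin m ⊕ ((F × Bool) ⊕ Unit) → ℝ),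
      (m : ℝ) = q F * (q F - 1) * (s + 1) / s ∧ Good v := by
  obtain ⟨m, Y, hm, hY⟩ := factor (P F s) (P_transpose s) (P_idem hc hs hsq)
  have hq := q_pos (F := F)
  have h0 : (0 : ℝ) ≤ s / (1 + s) := by positivity
  have h1 : (0 : ℝ) ≤ s * (q F)⁻¹ / (2 * (1 + s)) := by positivity
  have h2 : (0 : ℝ) ≤ (q F)⁻¹ / (2 * (1 + s)) := by positivity
  let v : V F → Fin m ⊕ ((F × Bool) ⊕ Unit) → ℝ := fun u => Sum.elim
    (fun k => √(s / (1 + s)) * Y u k) (Sum.elim
      (fun r => √(s * (q F)⁻¹ / (2 * (1 + s))) * if u.1 = r then 1 else 0)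
      (fun _ => √((q F)⁻¹ / (2 * (1 + s)))))
  have key : ∀ u w, ∑ k, v u k * v w k = (s * (1 : Matrix (V F) (V F) ℝ) u w + B F u w) /
      (2 * (1 + s)) := by
    intro u w
    rw [Fintype.sum_sum_type, Fintype.sum_sum_type]
    simp only [v, Sum.elim_inl, Sum.elim_inr]
    have e1 : ∑ k, √(s / (1 + s)) * Y u k * (√(s / (1 + s)) * Y w k) =
        s / (1 + s) * P F s u w := by
      rw [← hY u w, Finset.mul_sum]
      refine Finset.sum_congr rfl fun k _ => ?_
      have := Real.mul_self_sqrt h0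
      calc √(s / (1 + s)) * Y u k * (√(s / (1 + s)) * Y w k) =
          (√(s / (1 + s)) * √(s / (1 + s))) * (Y u k * Y w k) := by ring
        _ = _ := by rw [this]
    have e2 : ∑ r : F × Bool, (√(s * (q F)⁻¹ / (2 * (1 + s))) * if u.1 = r then (1 : ℝ) else 0) *
        (√(s * (q F)⁻¹ / (2 * (1 + s))) * if w.1 = r then (1 : ℝ) else 0) =
        s * (q F)⁻¹ / (2 * (1 + s)) * L F u w := by
      have h3 : ∀ r : F × Bool, (√(s * (q F)⁻¹ / (2 * (1 + s))) * if u.1 = r then (1 : ℝ)
          else 0) * (√(s * (q F)⁻¹ / (2 * (1 + s))) * if w.1 = r then (1 : ℝ) else 0) =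
          if u.1 = r then s * (q F)⁻¹ / (2 * (1 + s)) * L F u w else 0 := by
        intro r
        have := Real.mul_self_sqrt h1
        by_cases hr : u.1 = r
        · rw [if_pos hr, if_pos hr, L_apply]
          by_cases hw : w.1 = r
          · rw [if_pos hw, if_pos (hr.trans hw.symm), mul_one, this, mul_one]
          · have hw' : ¬ u.1 = w.1 := fun e => hw (e.symm.trans hr)
            rw [if_neg hw, if_neg hw']; simp
        · rw [if_neg hr, if_neg hr]; simp
      simp only [h3]
      rw [Finset.sum_ite_eq univ u.1]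
      simp
    rw [e1, e2]
    simp only [Finset.univ_unique, Finset.sum_singleton]
    rw [Real.mul_self_sqrt h2]
    simp only [P, Matrix.add_apply, Matrix.smul_apply, Matrix.sub_apply, smul_eq_mul, J_apply]
    field_simp
    ring
  refine ⟨m, v, ?_, ?_, ?_, ?_⟩
  · rw [hm, P_trace s hs]
  · intro u
    rw [key, Matrix.one_apply_eq, B_diag]
    field_simp
    ring
  · intro u w huw
    rw [key, Matrix.one_apply_ne huw, B_apply]
    split_ifs
    · constructor
      · positivity
      · rw [mul_zero, zero_add, div_lt_div_iff₀ (by positivity) (by norm_num)]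
        linarith
    · constructor
      · positivity
      · rw [mul_zero, zero_add, zero_div]
        norm_num
  · intro u w x huw hux hwx
    rw [key, key, key, Matrix.one_apply_ne huw, Matrix.one_apply_ne hux,
      Matrix.one_apply_ne hwx, B_apply, B_apply, B_apply]
    by_cases h3 : u.2 + w.2 = kap u.1 w.1
    · by_cases h4 : u.2 + x.2 = kap u.1 x.1
      · by_cases h5 : w.2 + x.2 = kap w.1 x.1
        · exfalso
          have ne1 : ∀ a b : V F, a ≠ b → a.2 + b.2 = kap a.1 b.1 → a.1 ≠ b.1 := by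
            intro a b hab h e
            apply hab
            refine Prod.ext e ?_
            rw [e, kap_self] at h
            exact eq_of_add h
          apply no_triangle hc (ne1 u w huw h3) (ne1 w x hwx h5) (ne1 u x hux h4)
          rw [← h3, ← h4, ← h5]
          have : u.2 + w.2 + (w.2 + x.2) + (u.2 + x.2) = (u.2 + u.2) + (w.2 + w.2) +
            (x.2 + x.2) := by ring
          rw [this, add_self', add_self', add_self']
          simp [add_self']
        · right; right; rw [if_neg h5]; simp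
      · right; left; rw [if_neg h4]; simp
    · left; rw [if_neg h3]; simp

end Pool.Agent.K9h63.AED
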