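import Pool.Agent.K9h63.AED.Block

set_option autoImplicit false

/-!
# Configurations: direct sums, the blocks, and the lower bound
-/

namespace Pool.Agent.K9h63.AED

open Finset Matrix

/-- `n` good vectors in `ℝ^d` -/
def Conf (n d : ℕ) : Prop := ∃ v : Fin n → Fin d → ℝ, Good v

theorem Good.reindex {ι ι' κ κ' : Type} [Fintype κ] [Fintype κ'] (e : ι' ≃ ι) (f : κ' ≃ κ)
    {v : ι → κ → ℝ} (h : Good v) : Good (fun i k => v (e i) (f k)) := by
  have key : ∀ i j : ι', ∑ k, v (e i) (f k) * v (e j) (f k) = ∑ k, v (e i) k * v (e j) k :=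
    fun i j => Equiv.sum_comp f (fun k => v (e i) k * v (e j) k)
  obtain ⟨h1, h2, h3⟩ := h
  refine ⟨fun i => ?_, fun i j hij => ?_, fun i j l hij hil hjl => ?_⟩
  · rw [key]; exact h1 _
  · rw [key]; exact h2 _ _ (fun h => hij (e.injective h))
  · rw [key, key, key]
    exact h3 _ _ _ (fun h => hij (e.injective h)) (fun h => hil (e.injective h))
      (fun h => hjl (e.injective h))

theorem Conf.of_good {ι κ : Type} [Fintype ι] [Fintype κ] {v : ι → κ → ℝ} (h : Good v)
    {n d : ℕ} (hn : Fintype.card ι = n) (hd : Fintype.card κ = d) : Conf n d := by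
  subst hn hd
  exact ⟨_, h.reindex (Fintype.equivFin ι).symm (Fintype.equivFin κ).symm⟩

/-- two orthogonal blocks -/
theorem Good.add {ι ι' κ κ' : Type} [Fintype κ] [Fintype κ'] {v : ι → κ → ℝ} {w : ι' → κ' → ℝ}
    (hv : Good v) (hw : Good w) : Good (fun (i : ι ⊕ ι') (k : κ ⊕ κ') =>
      Sum.elim (fun a => Sum.elim (fun b => v a b) (fun _ => 0) k)
        (fun a => Sum.elim (fun _ => 0) (fun b => w a b) k) i) := by
  obtain ⟨h1, h2, h3⟩ := hv
  obtain ⟨g1, g2, g3⟩ := hw
  refine ⟨?_, ?_, ?_⟩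
  · rintro (i | i)
    · simpa [Fintype.sum_sum_type] using h1 i
    · simpa [Fintype.sum_sum_type] using g1 i
  · rintro (i | i) (j | j) hij
    · simpa [Fintype.sum_sum_type] using h2 i j (fun h => hij (by rw [h]))
    · simp [Fintype.sum_sum_type]
    · simp [Fintype.sum_sum_type]
    · simpa [Fintype.sum_sum_type] using g2 i j (fun h => hij (by rw [h]))
  · rintro (i | i) (j | j) (l | l) hij hil hjl
    · simpa [Fintype.sum_sum_type] using h3 i j l (fun h => hij (by rw [h]))
        (fun h => hil (by rw [h])) (fun h => hjl (by rw [h]))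
    · simp [Fintype.sum_sum_type]
    · simp [Fintype.sum_sum_type]
    · simp [Fintype.sum_sum_type]
    · simp [Fintype.sum_sum_type]
    · simp [Fintype.sum_sum_type]
    · simp [Fintype.sum_sum_type]
    · simpa [Fintype.sum_sum_type] using g3 i j l (fun h => hij (by rw [h]))
        (fun h => hil (by rw [h])) (fun h => hjl (by rw [h]))

theorem Conf.add {n n' d d' : ℕ} (h : Conf n d) (h' : Conf n' d') : Conf (n + n') (d + d') := by
  obtain ⟨v, hv⟩ := h
  obtain ⟨w, hw⟩ := h'
  exact Conf.of_good (hv.add hw) (by simp) (by simp)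

theorem Conf.self (d : ℕ) : Conf d d := by
  have hz : ∀ i j : Fin d, i ≠ j →
      ∑ k, (if i = k then √(1 / 2 : ℝ) else 0) * (if j = k then √(1 / 2) else 0) = 0 := by
    intro i j hij
    refine Finset.sum_eq_zero fun k _ => ?_
    by_cases h : i = k
    · have : ¬ j = k := fun h' => hij (h.trans h'.symm)
      rw [if_neg this, mul_zero]
    · rw [if_neg h, zero_mul]
  have ho : ∀ i : Fin d,
      ∑ k, (if i = k then √(1 / 2 : ℝ) else 0) * (if i = k then √(1 / 2) else 0) = 1 / 2 := by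
    intro i
    have : ∀ k : Fin d, (if i = k then √(1 / 2 : ℝ) else 0) *
        (if i = k then √(1 / 2) else 0) = if i = k then 1 / 2 else 0 := by
      intro k
      by_cases h : i = k
      · rw [if_pos h, if_pos h, Real.mul_self_sqrt (by norm_num)]
      · rw [if_neg h, if_neg h, zero_mul]
    simp only [this]
    rw [Finset.sum_ite_eq univ i]
    simp
  refine ⟨fun i k => if i = k then √(1 / 2) else 0, ho, ?_, ?_⟩
  · intro i j hij
    rw [hz i j hij]
    norm_num
  · intro i j l hij _ _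
    left
    exact hz i j hij

/-- cubing is injective in a field with `2^(2k+1)` elements -/
theorem cube_injective {F : Type} [Field F] [Fintype F] (k : ℕ)
    (hF : Fintype.card F = 2 ^ (2 * k + 1)) : Function.Injective fun x : F => x ^ 3 := by
  intro x y hxy
  simp only at hxy
  by_cases hy : y = 0
  · subst hy
    rw [zero_pow (by norm_num)] at hxy
    exact pow_eq_zero_iff (by norm_num) |>.1 hxy
  · have h1 : (x / y) ^ 3 = 1 := by
      rw [div_pow, hxy, div_self (pow_ne_zero 3 hy)]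
    have h2 : x / y ≠ 0 := by
      intro h
      rw [h] at h1
      norm_num at h1
    have h3 : (x / y) ^ (Fintype.card F - 1) = 1 := FiniteField.pow_card_sub_one_eq_one _ h2
    have h4 : Nat.Coprime 3 (Fintype.card F - 1) := by
      rw [hF]
      have h5 : 2 ^ (2 * k + 1) % 3 = 2 := by
        rw [pow_succ, pow_mul]
        norm_num [Nat.mul_mod, Nat.pow_mod]
      rw [Nat.Prime.coprime_iff_not_dvd Nat.prime_three]
      intro h6
      have h7 : 1 ≤ 2 ^ (2 * k + 1) := Nat.one_le_two_pow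
      omega
    have h8 : orderOf (x / y) ∣ 1 := by
      rw [← h4]
      exact Nat.dvd_gcd (orderOf_dvd_of_pow_eq_one h1) (orderOf_dvd_of_pow_eq_one h3)
    have h9 : x / y = 1 := orderOf_eq_one_iff.1 (Nat.dvd_one.1 h8)
    exact (div_eq_one_iff_eq hy).1 h9

/-- the blocks -/
theorem conf_block (k : ℕ) : ∃ r : ℕ, (r : ℝ) = (2 ^ (k + 1)) ^ 4 / 4 + (2 ^ (k + 1)) ^ 3 / 4 +
    (2 ^ (k + 1)) ^ 2 / 2 - 2 ^ (k + 1) / 2 + 1 ∧ Conf (2 ^ (4 * k + 3)) r := by
  classical
  have : Fact (Nat.Prime 2) := ⟨Nat.prime_two⟩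
  let F := GaloisField 2 (2 * k + 1)
  let : Fintype F := Fintype.ofFinite F
  have hF : Fintype.card F = 2 ^ (2 * k + 1) := by
    rw [← Nat.card_eq_fintype_card]
    exact GaloisField.card 2 (2 * k + 1) (by omega)
  have hs : (0 : ℝ) < 2 ^ (k + 1) := by positivity
  have hq : q F = 2 ^ (2 * k + 1) := by
    unfold q
    rw [hF]
    push_cast
    rfl
  have hsq : ((2 : ℝ) ^ (k + 1)) ^ 2 = 2 * q F := by
    rw [hq]
    ring
  obtain ⟨m, v, hm, hv⟩ := block (F := F) (cube_injective k hF) hs hsq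
  refine ⟨m + (2 ^ (2 * k + 1) * 2 + 1), ?_, Conf.of_good hv ?_ ?_⟩
  · push_cast
    rw [hm]
    have h1 : q F = (2 ^ (k + 1)) ^ 2 / 2 := by rw [hsq]; ring
    have h2 : (2 : ℝ) ^ (2 * k + 1) = (2 ^ (k + 1)) ^ 2 / 2 := by ring
    rw [h1, h2]
    field_simp
    ring
  · simp only [Fintype.card_prod, Fintype.card_bool, hF]
    ring
  · simp only [Fintype.card_sum, Fintype.card_prod, Fintype.card_bool, hF, Fintype.card_fin,
      Fintype.card_unit]

end Pool.Agent.K9h63.AED
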