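import Pool.Agent.K9h63.AED.Field

set_option autoImplicit false

/-!
# Counting the solutions of `kap p r + kap r p' = s`
-/

namespace Pool.Agent.K9h63.AED

open Finset

variable {F : Type} [Field F] [Fintype F] [DecidableEq F] [CharP F 2]

theorem le_two (hc : Function.Injective fun x : F => x ^ 3) (p p' : F × Bool) (h : p ≠ p')
    (s : F) : (univ.filter fun r : F × Bool => kap p r + kap r p' = s).card ≤ 2 := by
  obtain ⟨x, i⟩ := p
  obtain ⟨x', i'⟩ := p'
  by_cases hi : i = i'
  · subst hi
    have hx : x ≠ x' := fun e => h (by rw [e])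
    rcases Finset.eq_empty_or_nonempty
      (univ.filter fun r : F × Bool => kap (x, i) r + kap r (x', i) = s) with he | ⟨r₀, hr₀⟩
    · rw [he]; simp
    · obtain ⟨y₀, j₀⟩ := r₀
      have hsub : (univ.filter fun r : F × Bool => kap (x, i) r + kap r (x', i) = s) ⊆
          {(y₀, j₀), (y₀ + (x + x'), j₀)} := by
        intro r hr
        obtain ⟨y, j⟩ := r
        rw [mem_filter] at hr hr₀
        obtain ⟨h1, h2⟩ := sol_eq hc hx (hr.2.trans hr₀.2.symm)
        rw [mem_insert, mem_singleton]
        rcases h2 with h2 | h2
        · left; rw [h1, h2]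
        · right; rw [h1, h2]
      exact (card_le_card hsub).trans card_le_two
  · have hinj : Set.InjOn (fun r : F × Bool => r.2)
        (univ.filter fun r : F × Bool => kap (x, i) r + kap r (x', i') = s) := by
      rintro ⟨y, j⟩ hr ⟨y₀, j₀⟩ hr₀ hj
      simp only [coe_filter, mem_univ, true_and, Set.mem_ofPred_eq] at hr hr₀ hj
      subst hj
      have hi' : (bt i' : F) = bt i + 1 := by
        rw [← bt_not]
        congr 1
        cases i <;> cases i' <;> simp_all
      have e2 : (2 : F) = 0 := two_eq
      have h3 : (y + (x + x')) ^ 3 = (y₀ + (x + x')) ^ 3 := by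
        apply eq_of_add
        have h4 := hr.trans hr₀.symm
        have h5 : kap (x, i) (y, j) + kap (y, j) (x', i') + (kap (x, i) (y₀, j) +
          kap (y₀, j) (x', i')) = 0 := by rw [h4, add_self']
        rw [← h5]
        unfold kap
        simp only
        rw [hi']
        ring_nf
        linear_combination (x * x' * y * 3 + x * x' ^ 2 * 3 + x * x' * y₀ * 3 + x * y ^ 2 +
          x * y₀ ^ 2 + x ^ 2 * x' * 3 + x ^ 2 * y + x ^ 2 * y₀ + x ^ 3 + x' * y ^ 2 +
          x' * y₀ ^ 2 + x' ^ 2 * y + x' ^ 2 * y₀ - bt i * x ^ 3 - bt i * x' ^ 3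
          - bt j * x ^ 3 - bt j * x' ^ 3 - bt i * y ^ 3 - bt i * y₀ ^ 3 - bt j * y ^ 3 -
          bt j * y₀ ^ 3) * e2
      have h6 := hc h3
      have h7 : y = y₀ := by simpa using h6
      rw [h7]
    have h8 := card_le_card_of_injOn (fun r : F × Bool => r.2)
      (s := univ.filter fun r : F × Bool => kap (x, i) r + kap r (x', i') = s)
      (t := (univ : Finset Bool)) (fun _ _ => mem_univ _) hinj
    simpa using h8

theorem eq_two (hc : Function.Injective fun x : F => x ^ 3) (p p' : F × Bool) (h : p ≠ p')
    (s : F) : (univ.filter fun r : F × Bool => kap p r + kap r p' = s).card = 2 := by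
  have h1 : ∑ s : F, (univ.filter fun r : F × Bool => kap p r + kap r p' = s).card =
      ∑ _s : F, 2 := by
    rw [← card_eq_sum_card_fiberwise (f := fun r : F × Bool => kap p r + kap r p')
      (s := univ) (t := univ) (fun _ _ => mem_univ _)]
    simp
  have h2 := (sum_eq_sum_iff_of_le fun s _ => le_two hc p p' h s).1 h1
  exact h2 s (mem_univ s)

theorem aux_same (hc : Function.Injective fun x : F => x ^ 3) {x y z : F} {i : Bool}
    (h : x ≠ y) : kap (x, i) (y, i) + kap (y, i) (z, !i) + kap (x, i) (z, !i) ≠ 0 := by
  intro h0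
  have hd : x + y ≠ 0 := fun e => h (eq_of_add e)
  apply no_root' hc hd (z := z)
  rw [← h0]
  unfold kap
  simp only
  have e2 : (2 : F) = 0 := two_eq
  have e3 : (bt i + (bt i + 1) : F) = 1 := by rw [← add_assoc, add_self', zero_add]
  rw [bt_not, add_self' (bt i), e3]
  ring_nf
  linear_combination (x * y * z + x * y ^ 2 + x ^ 2 * y - z ^ 3) * e2

/-- there are no triangles -/
theorem no_triangle (hc : Function.Injective fun x : F => x ^ 3) {p p' p'' : F × Bool}
    (h1 : p ≠ p') (h2 : p' ≠ p'') (h3 : p ≠ p'') :
    kap p p' + kap p' p'' + kap p p'' ≠ 0 := by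
  obtain ⟨x, i⟩ := p
  obtain ⟨y, j⟩ := p'
  obtain ⟨z, k⟩ := p''
  by_cases hij : i = j
  · subst hij
    have hxy : x ≠ y := fun e => h1 (by rw [e])
    by_cases hik : i = k
    · subst hik
      have hyz : y ≠ z := fun e => h2 (by rw [e])
      have hxz : x ≠ z := fun e => h3 (by rw [e])
      intro h0
      have h4 : (x + y) * ((y + z) * (x + z)) = 0 := by
        rw [← h0]
        unfold kap
        simp only [add_self' (bt i)]
        have e2 : (2 : F) = 0 := two_eq
        ring_nf
        linear_combination (x * y * z) * e2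
      rcases mul_eq_zero.1 h4 with h5 | h5
      · exact hxy (eq_of_add h5)
      · rcases mul_eq_zero.1 h5 with h6 | h6
        · exact hyz (eq_of_add h6)
        · exact hxz (eq_of_add h6)
    · have hk : k = !i := by cases i <;> cases k <;> simp_all
      subst hk
      exact aux_same hc hxy
  · have hj : j = !i := by cases i <;> cases j <;> simp_all
    subst hj
    by_cases hik : i = k
    · subst hik
      have hxz : x ≠ z := fun e => h3 (by rw [e])
      have := aux_same hc (i := i) (z := y) hxz
      rw [kap_comm (y, !i) (z, i)]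
      convert this using 1
      ring
    · have hk : k = !i := by cases i <;> cases k <;> simp_all
      subst hk
      have hyz : y ≠ z := fun e => h2 (by rw [e])
      have := aux_same hc (i := !i) (z := x) hyz
      rw [Bool.not_not] at this
      rw [kap_comm (x, i) (y, !i), kap_comm (x, i) (z, !i)]
      convert this using 1
      ring

end Pool.Agent.K9h63.AED
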