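import Mathlib

set_option autoImplicit false

/-!
# The numerical part of the upper bound
-/

namespace Pool.Agent.K9h63.AED

open Finset

theorem numeric {ι : Type} [Fintype ι] [DecidableEq ι] (l o : ι → ℝ) (d : ℕ) (Q S : ℝ)
    (t1 : ∑ a, l a = 0) (t2 : ∑ a, l a ^ 2 = Q) (t3 : ∑ a, l a ^ 3 = 0)
    (hs : ∑ a, l a * o a ^ 2 = S) (hn : ∑ a, o a ^ 2 = Fintype.card ι)
    (hQ : 0 < Q → Q < S)
    (hpsd : ∀ c : ι → ℝ, ∑ a, c a * o a = 0 → 0 ≤ ∑ a, (1 + l a) * c a ^ 2)
    (hT : (univ.filter fun a => -1 < l a).card ≤ d + 1)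
    (hP : ∀ a, ∃ b, -l a ≤ l b) : Fintype.card ι ≤ 2 * d + 1 := by
  by_contra hcon
  push Not at hcon
  have hn2 : (2 * d + 2 : ℝ) ≤ Fintype.card ι := by exact_mod_cast hcon
  have hn0 : (0 : ℝ) < Fintype.card ι := by
    have : (0 : ℝ) ≤ d := Nat.cast_nonneg d
    linarith
  -- the polynomial `(x - 1)^2 (x + 2)`
  have hf : ∑ a, ((l a - 1) ^ 2 * (l a + 2)) = 2 * (Fintype.card ι : ℝ) := by
    have : ∀ a, (l a - 1) ^ 2 * (l a + 2) = l a ^ 3 - 3 * l a + 2 := fun a => by ring
    simp only [this, Finset.sum_add_distrib, Finset.sum_sub_distrib, ← Finset.mul_sum, t1, t3]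
    simp
    ring
  have hg : ∑ a, (if -1 < l a then (0 : ℝ) else 4) ≥ 4 * (Fintype.card ι - (d + 1)) := by
    have e1 : ∀ a, (if -1 < l a then (0 : ℝ) else 4) = 4 - 4 * (if -1 < l a then 1 else 0) := by
      intro a
      split_ifs <;> norm_num
    simp only [e1, Finset.sum_sub_distrib, ← Finset.mul_sum, Finset.sum_boole]
    have e2 : ((univ.filter fun a => -1 < l a).card : ℝ) ≤ d + 1 := by exact_mod_cast hT
    simp
    linarith
  have hfg : ∑ a, ((l a - 1) ^ 2 * (l a + 2) - (if -1 < l a then (0 : ℝ) else 4)) ≤ 0 := by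
    rw [Finset.sum_sub_distrib, hf]
    linarith
  -- the terms with `-1 ≤ l a`
  have hterm : ∀ a, -1 ≤ l a →
      0 ≤ (l a - 1) ^ 2 * (l a + 2) - (if -1 < l a then (0 : ℝ) else 4) := by
    intro a ha
    split_ifs with h
    · have : 0 ≤ l a + 2 := by linarith
      have := mul_nonneg (sq_nonneg (l a - 1)) this
      linarith
    · have : l a = -1 := le_antisymm (not_lt.1 h) ha
      rw [this]
      norm_num
  have hterm0 : ∀ a, -1 ≤ l a →
      (l a - 1) ^ 2 * (l a + 2) - (if -1 < l a then (0 : ℝ) else 4) = 0 →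
      l a = 1 ∨ l a = -1 := by
    intro a ha h
    split_ifs at h with h'
    · left
      have h2 : l a + 2 ≠ 0 := by
        have : 0 < l a + 2 := by linarith
        exact this.ne'
      have h3 : (l a - 1) ^ 2 = 0 := by
        rcases mul_eq_zero.1 (by linarith : (l a - 1) ^ 2 * (l a + 2) = 0) with h4 | h4
        · exact h4
        · exact absurd h4 h2
      have := pow_eq_zero_iff (by norm_num) |>.1 h3
      linarith
    · right
      exact le_antisymm (not_lt.1 h') ha
  by_cases hA : ∀ a, -1 ≤ l a
  · have h0 := (Finset.sum_eq_zero_iff_of_nonneg (fun a _ => hterm a (hA a))).1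
      (le_antisymm hfg (Finset.sum_nonneg fun a _ => hterm a (hA a)))
    have h1 : ∀ a, l a = 1 ∨ l a = -1 := fun a => hterm0 a (hA a) (h0 a (mem_univ a))
    have h2 : Q = Fintype.card ι := by
      rw [← t2]
      have : ∀ a, l a ^ 2 = 1 := by
        intro a
        rcases h1 a with h | h <;> rw [h] <;> norm_num
      simp [this]
    have h3 : S ≤ Fintype.card ι := by
      rw [← hs, ← hn]
      refine Finset.sum_le_sum fun a _ => ?_
      have : l a ≤ 1 := by
        rcases h1 a with h | h <;> rw [h]
        norm_num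
      nlinarith [sq_nonneg (o a)]
    have := hQ (by rw [h2]; exact hn0)
    linarith
  · push Not at hA
    obtain ⟨a0, ha0⟩ := hA
    obtain ⟨b0, hb0⟩ := hP a0
    have hab : b0 ≠ a0 := by
      intro h
      rw [h] at hb0
      linarith
    have split : ∀ F : ι → ℝ, ∑ a, F a = F a0 + F b0 + ∑ a ∈ (univ.erase a0).erase b0, F a := by
      intro F
      rw [← Finset.add_sum_erase univ F (mem_univ a0),
        ← Finset.add_sum_erase (univ.erase a0) F (mem_erase.2 ⟨hab, mem_univ b0⟩)]
      ring
    -- two coordinates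
    have two : ∀ b, b ≠ a0 → 0 ≤ (1 + l a0) * o b ^ 2 + (1 + l b) * o a0 ^ 2 := by
      intro b hb
      have h1 := hpsd (fun a => if a = a0 then o b else if a = b then -o a0 else 0) ?_
      · have e1 : ∀ a, (1 + l a) * (if a = a0 then o b else if a = b then -o a0 else 0) ^ 2 =
            (if a = a0 then (1 + l a0) * o b ^ 2 else 0) +
              (if a = b then (1 + l b) * o a0 ^ 2 else 0) := by
          intro a
          by_cases h2 : a = a0
          · subst h2
            rw [if_pos rfl, if_pos rfl, if_neg (Ne.symm hb)]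
            ring
          · rw [if_neg h2, if_neg h2]
            by_cases h3 : a = b
            · subst h3
              rw [if_pos rfl, if_pos rfl]
              ring
            · rw [if_neg h3, if_neg h3]
              ring
        simp only [e1, Finset.sum_add_distrib, Finset.sum_ite_eq' univ, mem_univ, if_true] at h1
        exact h1
      · have e1 : ∀ a, (if a = a0 then o b else if a = b then -o a0 else 0) * o a =
            (if a = a0 then o b * o a0 else 0) + (if a = b then -o a0 * o b else 0) := by
          intro a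
          by_cases h2 : a = a0
          · subst h2
            rw [if_pos rfl, if_pos rfl, if_neg (Ne.symm hb)]
            ring
          · rw [if_neg h2, if_neg h2]
            by_cases h3 : a = b
            · subst h3
              rw [if_pos rfl, if_pos rfl]
              ring
            · rw [if_neg h3, if_neg h3]
              ring
        simp only [e1, Finset.sum_add_distrib, Finset.sum_ite_eq' univ, mem_univ, if_true]
        ring
    -- only one eigenvalue below `-1`
    have uniq : ∀ b, b ≠ a0 → -1 ≤ l b := by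
      intro b hb
      by_contra h
      push Not at h
      have h1 := two b hb
      have h2 : o b = 0 := by
        by_contra h3
        have h4 : 0 < o b ^ 2 := by positivity
        nlinarith [sq_nonneg (o a0)]
      have h3 := hpsd (fun a => if a = b then 1 else 0) (by simp [h2])
      have e1 : ∀ a, (1 + l a) * (if a = b then (1 : ℝ) else 0) ^ 2 =
          (if a = b then 1 + l b else 0) := by
        intro a
        by_cases h4 : a = b
        · subst h4; simp
        · simp [h4]
      simp only [e1, Finset.sum_ite_eq' univ, mem_univ, if_true] at h3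
      linarith
    have hmem : ∀ a ∈ (univ.erase a0).erase b0, a ≠ a0 := by
      intro a ha
      exact (mem_erase.1 (mem_erase.1 ha).2).1
    have hfg' := hfg
    rw [split] at hfg'
    have hb1 : -1 < l b0 := by linarith
    have ha1 : ¬ -1 < l a0 := by linarith
    rw [if_neg ha1, if_pos hb1] at hfg'
    have hrest : 0 ≤ ∑ a ∈ (univ.erase a0).erase b0,
        ((l a - 1) ^ 2 * (l a + 2) - (if -1 < l a then (0 : ℝ) else 4)) :=
      Finset.sum_nonneg fun a ha => hterm a (uniq a (hmem a ha))
    obtain ⟨y, hy⟩ : ∃ y, y = -l a0 := ⟨_, rfl⟩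
    have hla : l a0 = -y := by linarith
    have hy1 : 1 < y := by linarith
    have hby : y ≤ l b0 := by linarith
    have hpair : (l b0 - y) * (l b0 ^ 2 + l b0 * y + y ^ 2 - 3) =
        (l a0 - 1) ^ 2 * (l a0 + 2) - 4 + ((l b0 - 1) ^ 2 * (l b0 + 2) - 0) := by
      rw [hla]
      ring
    have hpos2 : 0 < l b0 ^ 2 + l b0 * y + y ^ 2 - 3 := by nlinarith
    have hpair0 : 0 ≤ (l b0 - y) * (l b0 ^ 2 + l b0 * y + y ^ 2 - 3) :=
      mul_nonneg (by linarith) hpos2.le
    have hzero : (l b0 - y) * (l b0 ^ 2 + l b0 * y + y ^ 2 - 3) = 0 := by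
      refine le_antisymm ?_ hpair0
      rw [hpair]
      linarith
    have hlb : l b0 = y := by
      rcases mul_eq_zero.1 hzero with h | h
      · linarith
      · exact absurd h hpos2.ne'
    have hrest0 : ∑ a ∈ (univ.erase a0).erase b0,
        ((l a - 1) ^ 2 * (l a + 2) - (if -1 < l a then (0 : ℝ) else 4)) = 0 := by
      refine le_antisymm ?_ hrest
      linarith
    have h0 := (Finset.sum_eq_zero_iff_of_nonneg
      (fun a ha => hterm a (uniq a (hmem a ha)))).1 hrest0
    have h1 : ∀ a ∈ (univ.erase a0).erase b0, l a = 1 ∨ l a = -1 :=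
      fun a ha => hterm0 a (uniq a (hmem a ha)) (h0 a ha)
    -- `Q` is large
    have hQn : (Fintype.card ι : ℝ) < Q := by
      rw [← t2, split]
      have e1 : ∑ a ∈ (univ.erase a0).erase b0, l a ^ 2 =
          ∑ a ∈ (univ.erase a0).erase b0, (1 : ℝ) := by
        refine Finset.sum_congr rfl fun a ha => ?_
        rcases h1 a ha with h | h <;> rw [h] <;> norm_num
      have e2 : (Fintype.card ι : ℝ) = 1 + 1 + ∑ a ∈ (univ.erase a0).erase b0, (1 : ℝ) := by
        rw [← split (fun _ => 1)]
        simp
      rw [e1, e2, hla, hlb]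
      nlinarith
    -- `S` is small
    have hSn : S ≤ Fintype.card ι := by
      rw [← hs, ← hn, split, split]
      have e1 : ∑ a ∈ (univ.erase a0).erase b0, l a * o a ^ 2 ≤
          ∑ a ∈ (univ.erase a0).erase b0, o a ^ 2 := by
        refine Finset.sum_le_sum fun a ha => ?_
        have : l a ≤ 1 := by
          rcases h1 a ha with h | h <;> rw [h]
          norm_num
        nlinarith [sq_nonneg (o a)]
      have e2 := two b0 hab
      rw [hla, hlb] at e2
      rw [hla, hlb]
      nlinarith
    have := hQ (by linarith)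
    linarith

end Pool.Agent.K9h63.AED
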