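import Mathlib

set_option autoImplicit false

/-!
# The functions `x² y + x y² + (i + j) (x³ + y³)` on a field of characteristic two

`F` is a finite field of characteristic two in which the third power is injective.
-/

namespace Pool.Agent.K9h63.AED

open Finset

variable {F : Type} [Field F]

/-- `false ↦ 0`, `true ↦ 1` -/
def bt (b : Bool) : F := if b then 1 else 0

/-- the symmetric function which defines the graph -/
def kap (p r : F × Bool) : F :=
  p.1 ^ 2 * r.1 + p.1 * r.1 ^ 2 + (bt p.2 + bt r.2) * (p.1 ^ 3 + r.1 ^ 3)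

theorem kap_comm (p r : F × Bool) : kap p r = kap r p := by
  unfold kap; ring

variable [CharP F 2]

theorem two_eq : (2 : F) = 0 := by
  have := CharP.cast_eq_zero F 2
  simpa using this

theorem add_self' (x : F) : x + x = 0 := by
  rw [← two_mul, two_eq, zero_mul]

theorem eq_of_add {x y : F} (h : x + y = 0) : x = y := by
  have h1 : x = x + (y + y) := by rw [add_self', add_zero]
  rw [h1, ← add_assoc, h, zero_add]

theorem kap_self (p : F × Bool) : kap p p = 0 := by
  unfold kap
  rw [add_self' (bt p.2)]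
  have : p.1 ^ 2 * p.1 + p.1 * p.1 ^ 2 = p.1 ^ 3 + p.1 ^ 3 := by ring
  rw [this, add_self', zero_mul, add_zero]

theorem no_root (hc : Function.Injective fun x : F => x ^ 3) (t : F) : t ^ 2 + t + 1 ≠ 0 := by
  intro h
  have h1 : t ^ 3 = 1 := by
    have h2 : t ^ 3 = (t ^ 2 + t + 1) * (t - 1) + 1 := by ring
    rw [h2, h, zero_mul, zero_add]
  have h3 : t = 1 := hc (by simpa using h1)
  rw [h3] at h
  have h4 : (1 : F) = 0 := by
    have : (1 : F) ^ 2 + 1 + 1 = 1 + 2 := by ring
    rw [this, two_eq, add_zero] at h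
    exact h
  exact one_ne_zero h4

theorem no_root' (hc : Function.Injective fun x : F => x ^ 3) {d z : F} (hd : d ≠ 0) :
    d ^ 2 * z + d * z ^ 2 + d ^ 3 ≠ 0 := by
  intro h
  apply no_root hc (z / d)
  have h1 : d ^ 2 * z + d * z ^ 2 + d ^ 3 = d ^ 3 * ((z / d) ^ 2 + z / d + 1) := by
    field_simp
    ring
  rw [h1] at h
  exact (mul_eq_zero.1 h).resolve_left (pow_ne_zero 3 hd)

theorem bt_not (b : Bool) : (bt (!b) : F) = bt b + 1 := by
  cases b
  · simp [bt]
  · simp [bt, add_self']

/-- two solutions of `kap p r + kap r p' = s` with the same second coordinate of `p` and `p'` -/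
theorem sol_eq (hc : Function.Injective fun x : F => x ^ 3) {x x' y y₀ : F} {i j j₀ : Bool}
    (hx : x ≠ x') (h : kap (x, i) (y, j) + kap (y, j) (x', i) =
      kap (x, i) (y₀, j₀) + kap (y₀, j₀) (x', i)) :
    j = j₀ ∧ (y = y₀ ∨ y = y₀ + (x + x')) := by
  have hd : x + x' ≠ 0 := fun h => hx (eq_of_add h)
  have key : kap (x, i) (y, j) + kap (y, j) (x', i) + (kap (x, i) (y₀, j₀) +
      kap (y₀, j₀) (x', i)) = 0 := by rw [h, add_self']
  have key2 : (x + x') ^ 2 * (y + y₀) + (x + x') * (y + y₀) ^ 2 +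
      (bt j + bt j₀) * (x ^ 3 + x' ^ 3) = 0 := by
    rw [← key]
    unfold kap
    simp only
    have e2 : (2 : F) = 0 := two_eq
    linear_combination ((x * x' * y + x * x' * y₀ + x * y * y₀ + x' * y * y₀ -
      bt i * x ^ 3 - bt i * x' ^ 3 - y ^ 3 * bt i - y₀ ^ 3 * bt i
      - bt j * y ^ 3 - bt j₀ * y₀ ^ 3) * e2)
  by_cases hj : j = j₀
  · refine ⟨hj, ?_⟩
    rw [hj, add_self', zero_mul, add_zero] at key2
    have h3 : (x + x') * ((y + y₀) * ((y + y₀) + (x + x'))) = 0 := by
      rw [← key2]; ring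
    rcases mul_eq_zero.1 ((mul_eq_zero.1 h3).resolve_left hd) with h4 | h4
    · exact Or.inl (eq_of_add h4)
    · right
      rw [add_assoc] at h4
      exact eq_of_add h4
  · exfalso
    have h5 : (bt j + bt j₀ : F) = 1 := by
      cases j <;> cases j₀ <;> simp_all [bt]
    rw [h5, one_mul] at key2
    apply no_root' hc hd (z := y + y₀ + x)
    rw [← key2]
    have e2 : (2 : F) = 0 := two_eq
    linear_combination (x ^ 3 + x ^ 2 * x' * 3 + 2 * x * x' ^ 2 + x ^ 2 * (y + y₀) +
      x * x' * (y + y₀)) * e2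

end Pool.Agent.K9h63.AED
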