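import Pool.Agent.K9h63.AED.Conf

set_option autoImplicit false

/-!
# The lower bound `2 d - 9 d^(3/4)`
-/

namespace Pool.Agent.K9h63.AED

open Finset

/-- the dimension of the block -/
noncomputable def R (s : ℝ) : ℝ := s ^ 4 / 4 + s ^ 3 / 4 + s ^ 2 / 2 - s / 2 + 1

theorem exists_scale {d : ℕ} (hd : 8 ≤ d) :
    ∃ k : ℕ, R (2 ^ (k + 1)) ≤ d ∧ (d : ℝ) < R (2 ^ (k + 2)) := by
  classical
  have hex : ∃ k : ℕ, (d : ℝ) < R (2 ^ (k + 2)) := by
    refine ⟨d, ?_⟩
    have h1 : (d : ℝ) < 2 ^ d := by exact_mod_cast Nat.lt_two_pow_self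
    have h2 : (1 : ℝ) ≤ 2 ^ d := one_le_pow₀ (by norm_num)
    set x : ℝ := 2 ^ d with hx
    have h3 : (2 : ℝ) ^ (d + 2) = 4 * x := by rw [hx]; ring
    rw [h3]
    unfold R
    nlinarith [pow_pos (lt_of_lt_of_le one_pos h2) 3, pow_pos (lt_of_lt_of_le one_pos h2) 4,
      pow_pos (lt_of_lt_of_le one_pos h2) 2]
  obtain ⟨k, hk, hmin⟩ : ∃ k, (d : ℝ) < R (2 ^ (k + 2)) ∧ ∀ j < k, ¬ (d : ℝ) < R (2 ^ (j + 2)) :=
    ⟨Nat.find hex, Nat.find_spec hex, fun j hj => Nat.find_min hex hj⟩
  refine ⟨k, ?_, hk⟩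
  cases k with
  | zero =>
    have : (8 : ℝ) ≤ d := by exact_mod_cast hd
    unfold R
    norm_num
    linarith
  | succ j => exact not_lt.1 (hmin j (Nat.lt_succ_self j))

theorem conf_lower (d : ℕ) :
    ∃ n : ℕ, Conf n d ∧ 2 * (d : ℝ) - 9 * (d : ℝ) ^ (3 / 4 : ℝ) ≤ n := by
  induction d using Nat.strong_induction_on with
  | _ d ih =>
    rcases lt_or_ge d 8 with hd | hd
    · refine ⟨d, Conf.self d, ?_⟩
      rcases Nat.eq_zero_or_pos d with h0 | h0
      · subst h0
        norm_num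
      · have h1 : (1 : ℝ) ≤ d := by exact_mod_cast h0
        have h2 : (d : ℝ) < 8 := by exact_mod_cast hd
        have h3 : (1 : ℝ) ≤ (d : ℝ) ^ (3 / 4 : ℝ) := Real.one_le_rpow h1 (by norm_num)
        linarith
    · obtain ⟨k, hk1, hk2⟩ := exists_scale hd
      obtain ⟨r, hr, hc⟩ := conf_block k
      have hrR : (r : ℝ) = R (2 ^ (k + 1)) := by rw [hr]; rfl
      rw [← hrR] at hk1
      have hrd : r ≤ d := by exact_mod_cast hk1
      set s : ℝ := 2 ^ (k + 1) with hs
      have hs2 : 2 ≤ s := by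
        rw [hs, pow_succ]
        have : (1 : ℝ) ≤ 2 ^ k := one_le_pow₀ (by norm_num)
        linarith
      have hN : ((2 ^ (4 * k + 3) : ℕ) : ℝ) = s ^ 4 / 2 := by
        rw [hs]
        push_cast
        ring
      have hs4 : (2 : ℝ) ^ (k + 2) = 2 * s := by rw [hs]; ring
      rw [hs4] at hk2
      have hr0 : 0 < r := by
        have : (0 : ℝ) < r := by
          rw [hr]
          nlinarith [pow_pos (lt_of_lt_of_le two_pos hs2) 3, pow_pos (lt_of_lt_of_le two_pos hs2) 4]
        exact_mod_cast this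
      obtain ⟨n', hn', hn⟩ := ih (d - r) (by omega)
      refine ⟨2 ^ (4 * k + 3) + n', ?_, ?_⟩
      · have := hc.add hn'
        rwa [Nat.add_sub_cancel' hrd] at this
      · push_cast [Nat.cast_sub hrd] at hn
        have hd0 : (0 : ℝ) < d := by exact_mod_cast (by omega : 0 < d)
        set y : ℝ := (d : ℝ) ^ (1 / 4 : ℝ) with hy
        have hy0 : 0 < y := Real.rpow_pos_of_pos hd0 _
        have hy4 : y ^ 4 = d := by
          rw [hy, ← Real.rpow_natCast, ← Real.rpow_mul hd0.le]
          norm_num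
        have hy3 : (d : ℝ) ^ (3 / 4 : ℝ) = y ^ 3 := by
          rw [hy, ← Real.rpow_natCast, ← Real.rpow_mul hd0.le]
          norm_num
        have h5 : ((d : ℝ) - r) ^ (3 / 4 : ℝ) ≤ y ^ 3 - 3 / 4 * (r / y) := by
          have e1 : (d : ℝ) - r = d * (1 + -(r / d)) := by field_simp; ring
          have e2 : (r : ℝ) / d ≤ 1 := (div_le_one hd0).2 hk1
          have e3 : (1 + -((r : ℝ) / d)) ^ (3 / 4 : ℝ) ≤ 1 + 3 / 4 * -(r / d) :=
            rpow_one_add_le_one_add_mul_self (by linarith) (by norm_num) (by norm_num)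
          rw [e1, Real.mul_rpow hd0.le (by linarith), hy3]
          calc y ^ 3 * (1 + -((r : ℝ) / d)) ^ (3 / 4 : ℝ) ≤ y ^ 3 * (1 + 3 / 4 * -(r / d)) := by
                gcongr
            _ = y ^ 3 - 3 / 4 * (r / y) := by
                rw [← hy4]
                field_simp
                ring
        have h6 : (r : ℝ) ≥ s ^ 4 / 4 := by
          rw [hr]
          nlinarith [pow_pos (lt_of_lt_of_le two_pos hs2) 3]
        have h7 : y ≤ 8 / 5 * s := by
          by_contra hcon
          push Not at hcon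
          have e1 : (8 / 5 * s) ^ 4 < y ^ 4 := pow_lt_pow_left₀ hcon (by positivity) (by norm_num)
          rw [hy4] at e1
          have e2 := lt_trans e1 hk2
          unfold R at e2
          have e3 : 0 < s := by linarith
          have e4 : s ^ 2 * 4 ≤ s ^ 2 * s ^ 2 := by
            have : (4 : ℝ) ≤ s ^ 2 := by nlinarith
            exact mul_le_mul_of_nonneg_left this (by positivity)
          have e5 : s ^ 3 * 2 ≤ s ^ 3 * s := mul_le_mul_of_nonneg_left hs2 (by positivity)
          nlinarith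
        have h8 : s ^ 3 ≤ 27 / 4 * (r / y) := by
          have e1 : r / y ≥ (s ^ 4 / 4) / (8 / 5 * s) := by
            apply div_le_div₀ (by positivity) h6 hy0 h7
          have e2 : (s ^ 4 / 4) / (8 / 5 * s) = 5 / 32 * s ^ 3 := by
            field_simp
            ring
          rw [e2] at e1
          have : 0 < s ^ 3 := by positivity
          nlinarith
        have h9 : 2 * (r : ℝ) - s ^ 4 / 2 ≤ s ^ 3 := by
          rw [hr]
          have e4 : s ^ 2 * 2 ≤ s ^ 2 * s := mul_le_mul_of_nonneg_left hs2 (by positivity)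
          nlinarith
        have h10 : ((2 ^ (4 * k + 3) + n' : ℕ) : ℝ) = s ^ 4 / 2 + n' := by
          rw [← hN]
          push_cast
          rfl
        rw [h10, hy3]
        have h11 : (27 : ℝ) / 4 * (r / y) = 9 * (3 / 4 * (r / y)) := by ring
        rw [h11] at h8
        linarith

end Pool.Agent.K9h63.AED
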