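import Pool.Agent.K9h63.AED.Upper
import Pool.Agent.K9h63.AED.Lower

set_option autoImplicit false

/-!
# Almost-equidistant sets of diameter one: from matrices to point sets
-/

namespace Pool.Agent.K9h63.AED

open Finset Matrix

/-- almost-equidistant sets of diameter one in `ℝ^d` -/
def IsAED (d : ℕ) (V : Finset (EuclideanSpace ℝ (Fin d))) : Prop :=
  (∀ x ∈ V, ∀ y ∈ V, ∀ z ∈ V, x ≠ y → x ≠ z → y ≠ z →
    dist x y = 1 ∨ dist x z = 1 ∨ dist y z = 1) ∧
  Metric.diam (V : Set (EuclideanSpace ℝ (Fin d))) = 1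

theorem dist_sq {d : ℕ} (x y : EuclideanSpace ℝ (Fin d)) :
    dist x y ^ 2 = ∑ k, (x k - y k) ^ 2 := by
  rw [EuclideanSpace.dist_eq, Real.sq_sqrt (Finset.sum_nonneg fun k _ => sq_nonneg _)]
  refine Finset.sum_congr rfl fun k _ => ?_
  rw [Real.dist_eq, sq_abs]

theorem card_le {d : ℕ} {V : Finset (EuclideanSpace ℝ (Fin d))} (hV : IsAED d V) :
    V.card ≤ 2 * d + 1 := by
  classical
  obtain ⟨hae, hdiam⟩ := hV
  have hle : ∀ x ∈ V, ∀ y ∈ V, dist x y ≤ 1 := by
    intro x hx y hy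
    rw [← hdiam]
    exact Metric.dist_le_diam_of_mem V.finite_toSet.isBounded hx hy
  have := upper (ι := V) (Matrix.of fun i j => if i = j then 0 else 1 - dist i.1 j.1 ^ 2)
    ?_ ?_ ?_ ?_ ?_ d (fun i k => i.1 k) ?_
  · simpa using this
  · ext i j
    simp only [Matrix.transpose_apply, Matrix.of_apply]
    rw [dist_comm]
    simp only [eq_comm]
  · intro i
    simp
  · intro i j
    simp only [Matrix.of_apply]
    split_ifs
    · exact le_rfl
    · have h1 := hle i.1 i.2 j.1 j.2
      have h2 : 0 ≤ dist i.1 j.1 := dist_nonneg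
      nlinarith
  · intro i j
    simp only [Matrix.of_apply]
    split_ifs with h
    · norm_num
    · have h1 : 0 < dist i.1 j.1 := dist_pos.2 fun e => h (Subtype.ext e)
      have : 0 < dist i.1 j.1 ^ 2 := by positivity
      linarith
  · intro i j k
    simp only [Matrix.of_apply]
    by_cases h1 : i = j
    · simp [h1]
    by_cases h2 : j = k
    · simp [h2]
    by_cases h3 : k = i
    · simp [h3]
    rw [if_neg h1, if_neg h2, if_neg h3]
    rcases hae i.1 i.2 j.1 j.2 k.1 k.2 (fun e => h1 (Subtype.ext e))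
      (fun e => h3 (Subtype.ext e.symm)) (fun e => h2 (Subtype.ext e)) with h | h | h
    · rw [h]; ring
    · rw [dist_comm k.1, h]; ring
    · rw [h]; ring
  · intro u hu
    have e1 : u ⬝ᵥ ((Matrix.of fun i j : V => if i = j then 0 else 1 - dist i.1 j.1 ^ 2) *ᵥ u) +
        ∑ i, u i ^ 2 = ∑ i, ∑ j, u i * u j * (1 - dist i.1 j.1 ^ 2) := by
      simp only [dotProduct, Matrix.mulVec, Matrix.of_apply, Finset.mul_sum]
      rw [← Finset.sum_add_distrib]
      refine Finset.sum_congr rfl fun i _ => ?_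
      have e2 : u i ^ 2 = ∑ j, if i = j then u i ^ 2 else 0 := by
        rw [Finset.sum_ite_eq univ i]
        simp
      rw [e2, ← Finset.sum_add_distrib]
      refine Finset.sum_congr rfl fun j _ => ?_
      by_cases h : i = j
      · subst h
        simp
        ring
      · rw [if_neg h, if_neg h]
        ring
    rw [e1]
    have e3 : ∀ i j : V, u i * u j * (1 - dist i.1 j.1 ^ 2) =
        u i * u j - (u i * ∑ k, i.1 k ^ 2) * u j - u i * (u j * ∑ k, j.1 k ^ 2) +
          2 * ∑ k, (u i * i.1 k) * (u j * j.1 k) := by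
      intro i j
      have e4 : dist i.1 j.1 ^ 2 = ∑ k, i.1 k ^ 2 + ∑ k, j.1 k ^ 2 -
          2 * ∑ k, i.1 k * j.1 k := by
        rw [dist_sq, Finset.mul_sum, ← Finset.sum_add_distrib, ← Finset.sum_sub_distrib]
        refine Finset.sum_congr rfl fun k _ => ?_
        ring
      have e5 : ∑ k, (u i * i.1 k) * (u j * j.1 k) = u i * u j * ∑ k, i.1 k * j.1 k := by
        rw [Finset.mul_sum]
        refine Finset.sum_congr rfl fun k _ => ?_
        ring
      rw [e4, e5]
      ring
    simp only [e3, Finset.sum_add_distrib, Finset.sum_sub_distrib, ← Finset.mul_sum,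
      ← Finset.sum_mul, hu]
    have e7 : ∑ i : V, ∑ j : V, ∑ k, (u i * i.1 k) * (u j * j.1 k) =
        ∑ k, (∑ i, u i * i.1 k) ^ 2 := by
      have e8 : ∀ i : V, ∑ j : V, ∑ k, (u i * i.1 k) * (u j * j.1 k) =
          ∑ k, ∑ j : V, (u i * i.1 k) * (u j * j.1 k) := fun i => Finset.sum_comm
      simp only [e8]
      rw [Finset.sum_comm]
      refine Finset.sum_congr rfl fun k _ => ?_
      rw [sq, Finset.sum_mul_sum]
    rw [e7]
    ring

/-- a list of points with the right squared distances -/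
theorem exists_of_points {n d : ℕ} (v : Fin n → Fin d → ℝ)
    (h1 : ∀ i j, i ≠ j → 0 < ∑ k, (v i k - v j k) ^ 2 ∧ ∑ k, (v i k - v j k) ^ 2 ≤ 1)
    (h2 : ∀ i j l, i ≠ j → i ≠ l → j ≠ l → ∑ k, (v i k - v j k) ^ 2 = 1 ∨
      ∑ k, (v i k - v l k) ^ 2 = 1 ∨ ∑ k, (v j k - v l k) ^ 2 = 1)
    (h3 : ∃ i j, ∑ k, (v i k - v j k) ^ 2 = 1) :
    ∃ V : Finset (EuclideanSpace ℝ (Fin d)), IsAED d V ∧ V.card = n := by
  classical
  let p : Fin n → EuclideanSpace ℝ (Fin d) := fun i => WithLp.toLp 2 (v i)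
  have hp : ∀ i j, dist (p i) (p j) ^ 2 = ∑ k, (v i k - v j k) ^ 2 := fun i j => dist_sq _ _
  have hinj : Function.Injective p := by
    intro i j hij
    by_contra hne
    have := (h1 i j hne).1
    rw [← hp, hij, dist_self] at this
    norm_num at this
  have hone : ∀ i j, ∑ k, (v i k - v j k) ^ 2 = 1 → dist (p i) (p j) = 1 := by
    intro i j h
    rw [← hp] at h
    exact (pow_eq_one_iff_of_nonneg dist_nonneg (by norm_num)).1 h
  have hle : ∀ i j, dist (p i) (p j) ≤ 1 := by
    intro i j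
    by_cases hij : i = j
    · rw [hij, dist_self]
      norm_num
    · have h := (h1 i j hij).2
      rw [← hp] at h
      exact (pow_le_one_iff_of_nonneg dist_nonneg (by norm_num)).1 h
  refine ⟨univ.image p, ⟨?_, ?_⟩, ?_⟩
  · intro x hx y hy z hz hxy hxz hyz
    obtain ⟨i, _, rfl⟩ := Finset.mem_image.1 hx
    obtain ⟨j, _, rfl⟩ := Finset.mem_image.1 hy
    obtain ⟨l, _, rfl⟩ := Finset.mem_image.1 hz
    rcases h2 i j l (fun e => hxy (by rw [e])) (fun e => hxz (by rw [e]))
      (fun e => hyz (by rw [e])) with h | h | h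
    · exact Or.inl (hone _ _ h)
    · exact Or.inr (Or.inl (hone _ _ h))
    · exact Or.inr (Or.inr (hone _ _ h))
  · apply le_antisymm
    · refine Metric.diam_le_of_forall_dist_le (by norm_num) ?_
      intro x hx y hy
      obtain ⟨i, _, rfl⟩ := Finset.mem_image.1 (Finset.mem_coe.1 hx)
      obtain ⟨j, _, rfl⟩ := Finset.mem_image.1 (Finset.mem_coe.1 hy)
      exact hle i j
    · obtain ⟨i, j, hij⟩ := h3
      rw [← hone i j hij]
      exact Metric.dist_le_diam_of_mem (Finset.finite_toSet _).isBounded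
        (Finset.mem_coe.2 (Finset.mem_image_of_mem p (mem_univ i)))
        (Finset.mem_coe.2 (Finset.mem_image_of_mem p (mem_univ j)))
  · rw [Finset.card_image_of_injective _ hinj]
    simp

theorem exists_two {d : ℕ} (hd : 1 ≤ d) :
    ∃ V : Finset (EuclideanSpace ℝ (Fin d)), IsAED d V ∧ V.card = 2 := by
  have key : ∀ i j : Fin 2, i ≠ j → ∑ k : Fin d,
      ((if i = 0 then 0 else if k = (⟨0, hd⟩ : Fin d) then (1 : ℝ) else 0) -
        (if j = 0 then 0 else if k = (⟨0, hd⟩ : Fin d) then (1 : ℝ) else 0)) ^ 2 = 1 := by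
    intro i j hij
    have : ∀ k : Fin d, ((if i = 0 then 0 else if k = (⟨0, hd⟩ : Fin d) then (1 : ℝ) else 0) -
        (if j = 0 then 0 else if k = (⟨0, hd⟩ : Fin d) then (1 : ℝ) else 0)) ^ 2 =
        if k = (⟨0, hd⟩ : Fin d) then 1 else 0 := by
      intro k
      fin_cases i <;> fin_cases j
      · exact absurd rfl hij
      · by_cases h : k = (⟨0, hd⟩ : Fin d) <;> simp [h]
      · by_cases h : k = (⟨0, hd⟩ : Fin d) <;> simp [h]
      · exact absurd rfl hij
    simp only [this]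
    rw [Finset.sum_ite_eq' univ]
    simp
  refine exists_of_points (fun i k => if i = 0 then 0 else
    if k = (⟨0, hd⟩ : Fin d) then 1 else 0) ?_ ?_ ⟨0, 1, key 0 1 (by norm_num)⟩
  · intro i j hij
    rw [key i j hij]
    norm_num
  · intro i j l hij _ _
    left
    exact key i j hij

theorem Conf.exists {n d : ℕ} (hd : 1 ≤ d) (h : Conf n d) :
    ∃ V : Finset (EuclideanSpace ℝ (Fin d)), IsAED d V ∧ n ≤ V.card := by
  rcases lt_or_ge n 3 with hn | hn
  · obtain ⟨V, hV, hc⟩ := exists_two hd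
    exact ⟨V, hV, by omega⟩
  · obtain ⟨v, h1, h2, h3⟩ := h
    have key : ∀ i j, ∑ k, (v i k - v j k) ^ 2 = 1 - 2 * ∑ k, v i k * v j k := by
      intro i j
      have : ∀ k, (v i k - v j k) ^ 2 = v i k * v i k + v j k * v j k -
          2 * (v i k * v j k) := fun k => by ring
      simp only [this, Finset.sum_add_distrib, Finset.sum_sub_distrib, ← Finset.mul_sum, h1]
      ring
    have h4 : ∀ i j l, i ≠ j → i ≠ l → j ≠ l → ∑ k, (v i k - v j k) ^ 2 = 1 ∨
        ∑ k, (v i k - v l k) ^ 2 = 1 ∨ ∑ k, (v j k - v l k) ^ 2 = 1 := by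
      intro i j l hij hil hjl
      rcases h3 i j l hij hil hjl with h | h | h
      · left; rw [key, h]; ring
      · right; left; rw [key, h]; ring
      · right; right; rw [key, h]; ring
    have h5 : ∀ i j, i ≠ j → 0 < ∑ k, (v i k - v j k) ^ 2 ∧ ∑ k, (v i k - v j k) ^ 2 ≤ 1 := by
      intro i j hij
      rw [key]
      obtain ⟨ha, hb⟩ := h2 i j hij
      constructor <;> linarith
    have h6 : ∃ i j, ∑ k, (v i k - v j k) ^ 2 = 1 := by
      rcases h4 ⟨0, by omega⟩ ⟨1, by omega⟩ ⟨2, by omega⟩ (by simp) (by simp) (by simp)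
        with h | h | h
      · exact ⟨_, _, h⟩
      · exact ⟨_, _, h⟩
      · exact ⟨_, _, h⟩
    obtain ⟨V, hV, hc⟩ := exists_of_points v h5 h4 h6
    exact ⟨V, hV, hc.ge⟩

theorem exists_three : ∃ V : Finset (EuclideanSpace ℝ (Fin 1)), IsAED 1 V ∧ V.card = 3 := by
  refine exists_of_points ![![0], ![1], ![1 / 2]] ?_ ?_ ⟨0, 1, by simp⟩
  · intro i j hij
    fin_cases i <;> fin_cases j <;> first | exact absurd rfl hij | norm_num
  · intro i j l hij hil hjl
    fin_cases i <;> fin_cases j <;> fin_cases l <;>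
      first | exact absurd rfl hij | exact absurd rfl hil | exact absurd rfl hjl | norm_num

theorem exists_five : ∃ V : Finset (EuclideanSpace ℝ (Fin 2)), IsAED 2 V ∧ V.card = 5 := by
  have hq : √(91 : ℝ) ^ 2 = 91 := Real.sq_sqrt (by norm_num)
  have hq1 : √(91 : ℝ) ≤ 10 := by
    rw [Real.sqrt_le_left (by norm_num)]
    norm_num
  have hq2 : (9 : ℝ) ≤ √91 := by
    rw [Real.le_sqrt (by norm_num) (by norm_num)]
    norm_num
  obtain ⟨v, hv⟩ : ∃ v : Fin 5 → Fin 2 → ℝ, v = ![![0, 0], ![1, 0], ![1 / 5, 3 / 5],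
    ![1 / 2, 3 / 5 - √91 / 10], ![4 / 5, 3 / 5]] := ⟨_, rfl⟩
  have key : ∀ i : Fin 5, ∑ k, (v i k - v (i + 1) k) ^ 2 = 1 := by
    intro i
    rw [hv]
    fin_cases i <;> simp [Fin.sum_univ_two] <;> nlinarith
  have key' : ∀ i : Fin 5, ∑ k, (v (i + 1) k - v i k) ^ 2 = 1 := by
    intro i
    rw [← key i]
    refine Finset.sum_congr rfl fun k _ => ?_
    ring
  refine exists_of_points v ?_ ?_ ⟨0, 0 + 1, key 0⟩
  · intro i j hij
    rw [hv]
    fin_cases i <;> fin_cases j <;> simp [Fin.sum_univ_two] at hij ⊢ <;>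
      constructor <;> nlinarith
  · intro i j l hij hil hjl
    have hcase : (j = i + 1 ∨ i = j + 1) ∨ (l = i + 1 ∨ i = l + 1) ∨ (l = j + 1 ∨ j = l + 1) := by
      revert i j l
      decide
    rcases hcase with (h | h) | (h | h) | (h | h)
    · left; rw [h]; exact key i
    · left; rw [h]; exact key' j
    · right; left; rw [h]; exact key i
    · right; left; rw [h]; exact key' l
    · right; right; rw [h]; exact key j
    · right; right; rw [h]; exact key' l

end Pool.Agent.K9h63.AED
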