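import Pool.Agent.K9h63.AED.Count

set_option autoImplicit false

/-!
# The matrix of the graph and its kernel projection
-/

namespace Pool.Agent.K9h63.AED

open Finset Matrix

variable (F : Type) [Field F] [Fintype F] [DecidableEq F]

/-- vertices -/
abbrev V : Type := (F × Bool) × F

/-- the adjacency matrix of the graph, plus the identity matrix -/
def B : Matrix (V F) (V F) ℝ := Matrix.of fun u v => if u.2 + v.2 = kap u.1 v.1 then 1 else 0

/-- equality of the first coordinates -/
def L : Matrix (V F) (V F) ℝ := Matrix.of fun u v => if u.1 = v.1 then 1 else 0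

/-- all ones -/
def J : Matrix (V F) (V F) ℝ := Matrix.of fun _ _ => 1

/-- the number of elements of the field -/
def q : ℝ := Fintype.card F

variable {F}

theorem B_apply (u v : V F) : B F u v = if u.2 + v.2 = kap u.1 v.1 then 1 else 0 := rfl

theorem L_apply (u v : V F) : L F u v = if u.1 = v.1 then 1 else 0 := rfl

theorem J_apply (u v : V F) : J F u v = 1 := rfl

theorem B_symm (u v : V F) : B F u v = B F v u := by
  rw [B_apply, B_apply, kap_comm, add_comm]

theorem L_symm (u v : V F) : L F u v = L F v u := by
  rw [L_apply, L_apply]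
  simp only [eq_comm]

variable [CharP F 2]

theorem eq_iff_add {a b c : F} : a + b = c ↔ b = a + c := by
  constructor
  · intro h
    rw [← h, ← add_assoc, add_self', zero_add]
  · intro h
    rw [h, ← add_assoc, add_self', zero_add]

theorem B_diag (u : V F) : B F u u = 1 := by
  rw [B_apply, kap_self, add_self']
  simp

/-- sum over the last coordinate -/
theorem sum_B (u : V F) (r : F × Bool) : ∑ b : F, B F u (r, b) = 1 := by
  simp only [B_apply, eq_iff_add]
  rw [Finset.sum_ite_eq' univ (u.2 + kap u.1 r) (fun _ => (1 : ℝ))]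
  simp

theorem BL : B F * L F = J F := by
  ext u w
  rw [Matrix.mul_apply, Fintype.sum_prod_type]
  simp only [L_apply, J_apply]
  have : ∀ r : F × Bool, ∑ b : F, B F u (r, b) * (if r = w.1 then (1 : ℝ) else 0) =
      if r = w.1 then 1 else 0 := by
    intro r
    rw [← Finset.sum_mul, sum_B, one_mul]
  simp only [this]
  rw [Finset.sum_ite_eq' univ w.1 (fun _ => (1 : ℝ))]
  simp

theorem BJ : B F * J F = (2 * q F) • J F := by
  ext u w
  rw [Matrix.mul_apply, Fintype.sum_prod_type]
  simp only [J_apply, mul_one, sum_B, Matrix.smul_apply, smul_eq_mul]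
  simp [q]
  ring

theorem LL : L F * L F = q F • L F := by
  ext u w
  rw [Matrix.mul_apply, Fintype.sum_prod_type]
  simp only [L_apply, Matrix.smul_apply, smul_eq_mul]
  have : ∀ r : F × Bool, ∑ _b : F,
      ((if u.1 = r then (1 : ℝ) else 0) * if r = w.1 then 1 else 0) =
      if u.1 = r then (q F * if u.1 = w.1 then 1 else 0) else 0 := by
    intro r
    by_cases h : u.1 = r
    · simp only [if_pos h, ← h]
      simp [q]
    · simp only [if_neg h]
      simp
  simp only [this]
  rw [Finset.sum_ite_eq univ u.1]
  simp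

theorem LJ : L F * J F = q F • J F := by
  ext u w
  rw [Matrix.mul_apply, Fintype.sum_prod_type]
  simp only [L_apply, J_apply, Matrix.smul_apply, smul_eq_mul]
  have : ∀ r : F × Bool, ∑ _b : F, ((if u.1 = r then (1 : ℝ) else 0) * 1) =
      if u.1 = r then q F else 0 := by
    intro r
    by_cases h : u.1 = r
    · simp only [if_pos h]
      simp [q]
    · simp only [if_neg h]
      simp
  simp only [this]
  rw [Finset.sum_ite_eq univ u.1]
  simp

theorem JJ : J F * J F = (2 * q F * q F) • J F := by
  ext u w
  rw [Matrix.mul_apply, Fintype.sum_prod_type]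
  simp only [J_apply, Matrix.smul_apply, smul_eq_mul]
  simp [q]
  ring

theorem LB : L F * B F = J F := by
  have h1 : (B F * L F)ᵀ = (J F)ᵀ := by rw [BL]
  rw [Matrix.transpose_mul] at h1
  have h2 : (L F)ᵀ = L F := by ext u v; exact L_symm v u
  have h3 : (B F)ᵀ = B F := by ext u v; exact B_symm v u
  have h4 : (J F)ᵀ = J F := by ext u v; rfl
  rwa [h2, h3, h4] at h1

theorem JB : J F * B F = (2 * q F) • J F := by
  have h1 : (B F * J F)ᵀ = ((2 * q F) • J F)ᵀ := by rw [BJ]
  rw [Matrix.transpose_mul, Matrix.transpose_smul] at h1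
  have h3 : (B F)ᵀ = B F := by ext u v; exact B_symm v u
  have h4 : (J F)ᵀ = J F := by ext u v; rfl
  rwa [h3, h4] at h1

theorem JL : J F * L F = q F • J F := by
  have h1 : (L F * J F)ᵀ = (q F • J F)ᵀ := by rw [LJ]
  rw [Matrix.transpose_mul, Matrix.transpose_smul] at h1
  have h2 : (L F)ᵀ = L F := by ext u v; exact L_symm v u
  have h4 : (J F)ᵀ = J F := by ext u v; rfl
  rwa [h2, h4] at h1

theorem BB (hc : Function.Injective fun x : F => x ^ 3) :
    B F * B F = (2 * q F) • (1 : Matrix (V F) (V F) ℝ) + (2 : ℝ) • J F - (2 : ℝ) • L F := by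
  ext u w
  rw [Matrix.mul_apply, Fintype.sum_prod_type]
  have h1 : ∀ r : F × Bool, ∑ b : F, B F u (r, b) * B F (r, b) w =
      if kap u.1 r + kap r w.1 = u.2 + w.2 then 1 else 0 := by
    intro r
    simp only [B_apply, eq_iff_add (a := u.2)]
    have h2 : ∀ b : F, ((if b = u.2 + kap u.1 r then (1 : ℝ) else 0) *
        if b + w.2 = kap r w.1 then 1 else 0) =
        if b = u.2 + kap u.1 r then (if u.2 + kap u.1 r + w.2 = kap r w.1 then 1 else 0)
          else 0 := by
      intro b
      by_cases hb : b = u.2 + kap u.1 r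
      · rw [if_pos hb, if_pos hb, one_mul, hb]
      · rw [if_neg hb, if_neg hb, zero_mul]
    simp only [h2]
    rw [Finset.sum_ite_eq' univ (u.2 + kap u.1 r)]
    simp only [mem_univ, if_true]
    congr 1
    rw [eq_iff_iff]
    constructor
    · intro h
      rw [← h]
      have : kap u.1 r + (u.2 + kap u.1 r + w.2) = (kap u.1 r + kap u.1 r) + (u.2 + w.2) := by
        ring
      rw [this, add_self', zero_add]
    · intro h
      have : u.2 + kap u.1 r + w.2 = kap u.1 r + (u.2 + w.2) := by ring
      rw [this, ← h, ← add_assoc, add_self', zero_add]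
  simp only [h1]
  rw [Finset.sum_boole]
  simp only [Matrix.sub_apply, Matrix.add_apply, Matrix.smul_apply, smul_eq_mul, J_apply,
    L_apply]
  by_cases hp : u.1 = w.1
  · rw [if_pos hp]
    have h3 : (univ.filter fun r : F × Bool => kap u.1 r + kap r w.1 = u.2 + w.2) =
        univ.filter fun r : F × Bool => (0 : F) = u.2 + w.2 := by
      apply Finset.filter_congr
      intro r _
      rw [← hp, kap_comm r u.1, add_self']
    rw [h3]
    by_cases ha : u.2 = w.2
    · have huw : u = w := Prod.ext hp ha
      subst huw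
      rw [add_self']
      simp [q]
      ring
    · have huw : u ≠ w := fun e => ha (by rw [e])
      have h4 : ¬ (0 : F) = u.2 + w.2 := fun e => ha (eq_of_add e.symm)
      simp only [h4, Finset.filter_false, card_empty]
      rw [Matrix.one_apply_ne huw]
      norm_num
  · rw [eq_two hc _ _ hp]
    have huw : u ≠ w := fun e => hp (by rw [e])
    rw [Matrix.one_apply_ne huw, if_neg hp]
    norm_num

end Pool.Agent.K9h63.AED
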