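import Pool.Agent.K9h63.AED.Spec
import Pool.Agent.K9h63.AED.Count2

set_option autoImplicit false

/-!
# The upper bound `2 d + 1`
-/

namespace Pool.Agent.K9h63.AED

open Finset Matrix

theorem quad {n : Type} [Fintype n] (U A D : Matrix n n ℝ) (h : Uᵀ * A * U = D) (c : n → ℝ) :
    (U *ᵥ c) ⬝ᵥ (A *ᵥ (U *ᵥ c)) = c ⬝ᵥ (D *ᵥ c) := by
  rw [← h, ← Matrix.mulVec_mulVec, ← Matrix.mulVec_mulVec, Matrix.dotProduct_mulVec c Uᵀ,
    Matrix.vecMul_transpose]

theorem dot_diag {n : Type} [Fintype n] [DecidableEq n] (l c : n → ℝ) :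
    c ⬝ᵥ (diagonal l *ᵥ c) = ∑ a, l a * c a ^ 2 := by
  simp only [dotProduct, Matrix.mulVec_diagonal]
  refine Finset.sum_congr rfl fun a _ => ?_
  ring

theorem dot_one {n : Type} [Fintype n] [DecidableEq n] (c : n → ℝ) :
    c ⬝ᵥ ((1 : Matrix n n ℝ) *ᵥ c) = ∑ a, c a ^ 2 := by
  rw [Matrix.one_mulVec]
  simp only [dotProduct]
  refine Finset.sum_congr rfl fun a _ => ?_
  ring

/-- the matrix form of the upper bound -/
theorem upper {ι : Type} [Fintype ι] [DecidableEq ι] (X : Matrix ι ι ℝ) (hX : Xᵀ = X)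
    (hd : ∀ i, X i i = 0) (h0 : ∀ i j, 0 ≤ X i j) (h1 : ∀ i j, X i j < 1)
    (h3 : ∀ i j k, X i j * X j k * X k i = 0) (d : ℕ) (v : ι → Fin d → ℝ)
    (hM : ∀ u : ι → ℝ, ∑ i, u i = 0 → u ⬝ᵥ (X *ᵥ u) + ∑ i, u i ^ 2 =
      2 * ∑ k, (∑ i, u i * v i k) ^ 2) :
    Fintype.card ι ≤ 2 * d + 1 := by
  obtain ⟨U, l, hU1, hU2, hX'⟩ := spec X hX
  have hD : Uᵀ * X * U = diagonal l := by
    rw [hX']
    have : Uᵀ * (U * diagonal l * Uᵀ) * U = (Uᵀ * U) * diagonal l * (Uᵀ * U) := by
      simp only [Matrix.mul_assoc]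
    rw [this, hU2, one_mul, mul_one]
  have hI : Uᵀ * 1 * U = 1 := by rw [mul_one, hU2]
  have hqX : ∀ c : ι → ℝ, (U *ᵥ c) ⬝ᵥ (X *ᵥ (U *ᵥ c)) = ∑ a, l a * c a ^ 2 := by
    intro c
    rw [quad U X _ hD, dot_diag]
  have hq1 : ∀ c : ι → ℝ, ∑ i, (U *ᵥ c) i ^ 2 = ∑ a, c a ^ 2 := by
    intro c
    rw [← dot_one, ← dot_one, quad U 1 _ hI]
  have hinv : ∀ w : ι → ℝ, U *ᵥ (Uᵀ *ᵥ w) = w := by
    intro w
    rw [Matrix.mulVec_mulVec, hU1, Matrix.one_mulVec]
  -- traces
  have hXX : X * X = U * diagonal (fun a => l a * l a) * Uᵀ := by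
    rw [hX']
    have : U * diagonal l * Uᵀ * (U * diagonal l * Uᵀ) =
        U * (diagonal l * (Uᵀ * U) * diagonal l) * Uᵀ := by
      simp only [Matrix.mul_assoc]
    rw [this, hU2, mul_one, Matrix.diagonal_mul_diagonal]
  have hXXX : X * X * X = U * diagonal (fun a => l a * l a * l a) * Uᵀ := by
    rw [hXX]
    conv_lhs => rw [hX']
    have : U * diagonal (fun a => l a * l a) * Uᵀ * (U * diagonal l * Uᵀ) =
        U * (diagonal (fun a => l a * l a) * (Uᵀ * U) * diagonal l) * Uᵀ := by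
      simp only [Matrix.mul_assoc]
    rw [this, hU2, mul_one, Matrix.diagonal_mul_diagonal]
  have htr : ∀ m : ι → ℝ, (U * diagonal m * Uᵀ).trace = ∑ a, m a := by
    intro m
    rw [Matrix.trace_mul_comm, ← Matrix.mul_assoc, hU2, one_mul, Matrix.trace_diagonal]
  have t1 : ∑ a, l a = 0 := by
    rw [← htr l, ← hX']
    simp [Matrix.trace, hd]
  have t2 : ∑ a, l a ^ 2 = ∑ i, ∑ j, X i j ^ 2 := by
    have : ∑ a, l a ^ 2 = (X * X).trace := by
      rw [hXX, htr]
      refine Finset.sum_congr rfl fun a _ => ?_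
      ring
    rw [this]
    simp only [Matrix.trace, Matrix.diag_apply, Matrix.mul_apply]
    refine Finset.sum_congr rfl fun i _ => Finset.sum_congr rfl fun j _ => ?_
    have : X j i = X i j := congrFun (congrFun hX i) j
    rw [this]
    ring
  have t3 : ∑ a, l a ^ 3 = 0 := by
    have : ∑ a, l a ^ 3 = (X * X * X).trace := by
      rw [hXXX, htr]
      refine Finset.sum_congr rfl fun a _ => ?_
      ring
    rw [this]
    simp only [Matrix.trace, Matrix.diag_apply, Matrix.mul_apply, Finset.sum_mul, h3,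
      Finset.sum_const_zero]
  set o : ι → ℝ := Uᵀ *ᵥ (fun _ => 1) with ho
  have hsum : ∀ c : ι → ℝ, ∑ i, (U *ᵥ c) i = ∑ a, c a * o a := by
    intro c
    have e1 : ∑ i, (U *ᵥ c) i = (fun _ => (1 : ℝ)) ⬝ᵥ (U *ᵥ c) := by
      simp [dotProduct]
    rw [e1, Matrix.dotProduct_mulVec, ← Matrix.mulVec_transpose, ← ho, dotProduct]
    refine Finset.sum_congr rfl fun a _ => ?_
    ring
  have hn : ∑ a, o a ^ 2 = Fintype.card ι := by
    rw [← hq1 o, ho, hinv]
    simp
  have hs : ∑ a, l a * o a ^ 2 = ∑ i, ∑ j, X i j := by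
    rw [← hqX o, ho, hinv]
    simp [dotProduct, Matrix.mulVec]
  have hquad : ∀ c : ι → ℝ, ∑ a, c a * o a = 0 → ∑ a, (1 + l a) * c a ^ 2 =
      2 * ∑ k, (∑ i, (U *ᵥ c) i * v i k) ^ 2 := by
    intro c hc
    rw [← hM (U *ᵥ c) (by rw [hsum, hc]), hqX, hq1, ← Finset.sum_add_distrib]
    refine Finset.sum_congr rfl fun a _ => ?_
    ring
  refine numeric l o d _ _ t1 t2 t3 hs hn ?_ ?_ ?_ ?_
  · -- entries are below `1`
    intro hpos
    have hle : ∀ i j, X i j ^ 2 ≤ X i j := by
      intro i j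
      nlinarith [h0 i j, h1 i j]
    obtain ⟨i, _, hi⟩ : ∃ i ∈ (univ : Finset ι), 0 < ∑ j, X i j ^ 2 := by
      by_contra hcon
      push Not at hcon
      exact absurd (Finset.sum_nonpos hcon) (not_le.2 hpos)
    obtain ⟨j, _, hj⟩ : ∃ j ∈ (univ : Finset ι), 0 < X i j ^ 2 := by
      by_contra hcon
      push Not at hcon
      exact absurd (Finset.sum_nonpos hcon) (not_le.2 hi)
    refine Finset.sum_lt_sum (fun a _ => Finset.sum_le_sum fun b _ => hle a b)
      ⟨i, mem_univ i, Finset.sum_lt_sum (fun b _ => hle i b) ⟨j, mem_univ j, ?_⟩⟩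
    have : 0 < X i j := by
      rcases (h0 i j).lt_or_eq with h | h
      · exact h
      · rw [← h] at hj
        norm_num at hj
    nlinarith [h1 i j]
  · intro c hc
    rw [hquad c hc]
    positivity
  · -- the number of eigenvalues above `-1`
    by_contra hcon
    push Not at hcon
    set T := {a : ι // -1 < l a}
    have hcT : Fintype.card T = (univ.filter fun a => -1 < l a).card :=
      Fintype.card_subtype _
    let ext : (T → ℝ) →ₗ[ℝ] (ι → ℝ) :=
      { toFun := fun c a => if h : -1 < l a then c ⟨a, h⟩ else 0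
        map_add' := by
          intro c c'
          funext a
          by_cases h : -1 < l a <;> simp [h]
        map_smul' := by
          intro t c
          funext a
          by_cases h : -1 < l a <;> simp [h] }
    let f : (T → ℝ) →ₗ[ℝ] (Option (Fin d) → ℝ) :=
      { toFun := fun c k => match k with
          | none => ∑ i, (U *ᵥ (ext c)) i
          | some k => ∑ i, (U *ᵥ (ext c)) i * v i k
        map_add' := by
          intro c c'
          funext k
          cases k with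
          | none => simp [Matrix.mulVec_add, Finset.sum_add_distrib]
          | some k => simp [Matrix.mulVec_add, Finset.sum_add_distrib, add_mul]
        map_smul' := by
          intro t c
          funext k
          cases k with
          | none => simp [Matrix.mulVec_smul, Finset.mul_sum]
          | some k => simp [Matrix.mulVec_smul, Finset.mul_sum, mul_assoc] }
    have hker : LinearMap.ker f ≠ ⊥ := by
      apply LinearMap.ker_ne_bot_of_finrank_lt
      simp only [Module.finrank_fintype_fun_eq_card, Fintype.card_option, Fintype.card_fin]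
      rw [hcT]
      exact hcon
    obtain ⟨c, hc, hc0⟩ := (Submodule.ne_bot_iff _).1 hker
    have hfc : f c = 0 := hc
    have e1 : ∑ i, (U *ᵥ (ext c)) i = 0 := congrFun hfc none
    have e2 : ∀ k, ∑ i, (U *ᵥ (ext c)) i * v i k = 0 := fun k => congrFun hfc (some k)
    have e3 := hquad (ext c) (by rw [← hsum, e1])
    simp only [e2] at e3
    have e4 : ∑ a, (1 + l a) * ext c a ^ 2 = 0 := by rw [e3]; simp
    have e5 : ∀ a, 0 ≤ (1 + l a) * ext c a ^ 2 := by
      intro a
      by_cases h : -1 < l a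
      · have : 0 ≤ 1 + l a := by linarith
        positivity
      · have : ext c a = 0 := dif_neg h
        rw [this]
        norm_num
    have e6 := (Finset.sum_eq_zero_iff_of_nonneg (fun a _ => e5 a)).1 e4
    apply hc0
    funext a
    have e7 := e6 a.1 (mem_univ _)
    have e8 : ext c a.1 = c a := dif_pos a.2
    rw [e8] at e7
    have e9 : (1 + l a.1) ≠ 0 := by
      have := a.2
      have : 0 < 1 + l a.1 := by linarith
      exact this.ne'
    rcases mul_eq_zero.1 e7 with h | h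
    · exact absurd h e9
    · exact pow_eq_zero_iff (by norm_num) |>.1 h
  · -- Perron
    intro a
    have : Nonempty ι := ⟨a⟩
    obtain ⟨b, hb⟩ := Finite.exists_max l
    refine ⟨b, ?_⟩
    set e : ι → ℝ := U *ᵥ (Pi.single a 1) with he
    have q1 : e ⬝ᵥ (X *ᵥ e) = l a := by
      rw [he, hqX]
      simp [Pi.single_apply]
    have q2 : ∑ i, e i ^ 2 = 1 := by
      rw [he, hq1]
      simp [Pi.single_apply]
    set z : ι → ℝ := fun i => |e i| with hz
    have q3 : -(e ⬝ᵥ (X *ᵥ e)) ≤ z ⬝ᵥ (X *ᵥ z) := by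
      simp only [dotProduct, Matrix.mulVec, Finset.mul_sum, hz]
      rw [← Finset.sum_neg_distrib]
      refine Finset.sum_le_sum fun i _ => ?_
      rw [← Finset.sum_neg_distrib]
      refine Finset.sum_le_sum fun j _ => ?_
      have h5 : -(e i * e j) ≤ |e i| * |e j| := by
        rw [← abs_mul]
        exact neg_le_abs _
      nlinarith [h0 i j]
    have q4 : z = U *ᵥ (Uᵀ *ᵥ z) := (hinv z).symm
    have q5 : z ⬝ᵥ (X *ᵥ z) = ∑ a, l a * (Uᵀ *ᵥ z) a ^ 2 := by
      conv_lhs => rw [q4]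
      rw [hqX]
    have q6 : ∑ a, (Uᵀ *ᵥ z) a ^ 2 = 1 := by
      rw [← hq1, hinv, ← q2]
      refine Finset.sum_congr rfl fun i _ => ?_
      rw [hz]
      exact sq_abs _
    have q7 : z ⬝ᵥ (X *ᵥ z) ≤ l b := by
      rw [q5]
      calc ∑ a, l a * (Uᵀ *ᵥ z) a ^ 2 ≤ ∑ a, l b * (Uᵀ *ᵥ z) a ^ 2 :=
            Finset.sum_le_sum fun a _ => mul_le_mul_of_nonneg_right (hb a) (sq_nonneg _)
        _ = l b := by rw [← Finset.mul_sum, q6, mul_one]
    rw [q1] at q3
    linarith

end Pool.Agent.K9h63.AED
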